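import Pool.Agent.Helper98.SW.PhiW

/-!
# Project SW: the meaning of the formula
-/

set_option autoImplicit false

namespace Pool.Agent.Helper98.SW

open Pool.Agent.Helper87.Sym (Fml cons Sat IsTransModelZF)
open Pool.Agent.Helper63.WR (IsDelta0 IsSigma1)
open Pool.Agent.Helper20.SW (Wd TW bit warc wsize bit_start bit_three bit_end bit_mid bit_x bit_x'
  bit_y bit_y')

theorem sc_one_nt (n : ℕ) : sc 1 (nt n) = nt (n + 1) := sc_nt 1 n

/-- `q` is the graph of `m ↦ 4 m + 4` on `{0, …, n}`. -/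
def Qg (n : ℕ) (q : ZFSet.{0}) : Prop :=
  ∀ m, m ≤ n → ∀ a : ℕ, ZFSet.pair (nt m) (nt a) ∈ q ↔ a = 4 * m + 4

theorem qz_iff {n : ℕ} {q : ZFSet.{0}} : Qz ZFSet.omega (nt n) q ↔ Qg n q := by
  constructor
  · rintro ⟨⟨z, -, rfl, h1⟩, h2, h3, h4⟩
    have hex : ∀ m, m ≤ n → ∃ a : ℕ, ZFSet.pair (nt m) (nt a) ∈ q := by
      intro m hm
      rcases Nat.lt_or_eq_of_le hm with h | rfl
      · obtain ⟨a, ha, h5⟩ := h3 (nt m) (nt_mem.2 h)
        obtain ⟨a, rfl⟩ := mem_omega.1 ha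
        exact ⟨a, h5⟩
      · obtain ⟨a, ha, h5⟩ := h4
        obtain ⟨a, rfl⟩ := mem_omega.1 ha
        exact ⟨a, h5⟩
    have hu : ∀ m, m ≤ n → ∀ a : ℕ, ZFSet.pair (nt m) (nt a) ∈ q → a = 4 * m + 4 := by
      intro m
      induction m with
      | zero =>
        intro _ a ha
        exact nt_inj (h1 (nt a) (nt_omega a) ha)
      | succ m ih =>
        intro hm a ha
        obtain ⟨b, hb, h5, h6⟩ := h2 (nt m) (nt_mem.2 (by omega)) (nt (m + 1)) (nt_omega _)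
          (sc_one_nt m).symm (nt a) (nt_omega a) ha
        obtain ⟨b, rfl⟩ := mem_omega.1 hb
        have h7 := ih (by omega) b h6
        rw [sc_nt, nt_eq] at h5
        omega
    intro m hm a
    refine ⟨hu m hm a, ?_⟩
    rintro rfl
    obtain ⟨a, ha⟩ := hex m hm
    rwa [← hu m hm a ha]
  · intro h
    refine ⟨⟨∅, ZFSet.omega_zero, rfl, ?_⟩, ?_, ?_, ?_⟩
    · intro a ha h1
      obtain ⟨a, rfl⟩ := mem_omega.1 ha
      rw [(h 0 (Nat.zero_le _) a).1 h1]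
    · intro m hm m' hm' he a ha h1
      obtain ⟨m, hmn, rfl⟩ := mem_nt.1 hm
      obtain ⟨a, rfl⟩ := mem_omega.1 ha
      rw [he, sc_one_nt] at h1
      have h2 := (h (m + 1) hmn a).1 h1
      refine ⟨nt (4 * m + 4), nt_omega _, ?_, (h m (by omega) _).2 rfl⟩
      rw [sc_nt, nt_eq]
      omega
    · intro m hm
      obtain ⟨m, hmn, rfl⟩ := mem_nt.1 hm
      exact ⟨_, nt_omega _, (h m (by omega) _).2 rfl⟩
    · exact ⟨_, nt_omega _, (h n le_rfl _).2 rfl⟩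

theorem pre_fst {j : Wd} {x y : ZFSet.{0}} (h : Pre j x y) {m : ℕ} (hm : m < j.length) :
    (j.getD m (false, false)).1 = true ↔ nt m ∈ x := by
  have h1 := (h ⟨m, hm⟩).1
  rw [List.getD_eq_getElem _ _ hm]
  exact h1

theorem pre_snd {j : Wd} {x y : ZFSet.{0}} (h : Pre j x y) {m : ℕ} (hm : m < j.length) :
    (j.getD m (false, false)).2 = true ↔ nt m ∈ y := by
  have h1 := (h ⟨m, hm⟩).2
  rw [List.getD_eq_getElem _ _ hm]
  exact h1

theorem bz_iff {x y q : ZFSet.{0}} {j : Wd} (hj : Pre j x y) (hq : Qg j.length q) (a : ℕ) :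
    Bz ZFSet.omega x y (nt j.length) q (nt a) ↔ bit j a = true := by
  constructor
  · rintro ((h | h | h) | ⟨m, hm, c, hc, h1, h2⟩ | h)
    · rw [nt_inj h]
      exact bit_start j (by omega)
    · rw [nt_inj h]
      exact bit_start j (by omega)
    · rw [nt_inj h]
      exact bit_start j (by omega)
    · obtain ⟨m, hmn, rfl⟩ := mem_nt.1 hm
      obtain ⟨c, rfl⟩ := mem_omega.1 hc
      have hc := (hq m (by omega) c).1 h1
      subst hc
      simp only [sc_nt, nt_eq] at h2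
      rcases h2 with ⟨rfl, h3⟩ | ⟨rfl, h3⟩ | ⟨rfl, h3⟩ | ⟨rfl, h3⟩
      · have := bit_x j hmn
        rw [Nat.add_zero, this]
        exact (pre_fst hj hmn).2 h3
      · rw [show 4 * m + 4 + 1 = 4 * m + 5 by omega, bit_x' j hmn, Bool.not_eq_true']
        rw [← Bool.not_eq_true, pre_fst hj hmn]
        exact h3
      · rw [show 4 * m + 4 + 2 = 4 * m + 6 by omega, bit_y j hmn]
        exact (pre_snd hj hmn).2 h3
      · rw [show 4 * m + 4 + 3 = 4 * m + 7 by omega, bit_y' j hmn, Bool.not_eq_true']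
        rw [← Bool.not_eq_true, pre_snd hj hmn]
        exact h3
    · rw [(hq _ le_rfl a).1 h]
      exact bit_mid j
  · intro h
    by_cases h0 : a < 3
    · left
      simp only [nt_eq]
      omega
    right
    by_cases h1 : a = 3
    · subst h1
      rw [bit_three] at h
      exact absurd h (by simp)
    by_cases h2 : a = 4 * j.length + 4
    · right
      exact (hq _ le_rfl a).2 h2
    by_cases h3 : 4 * j.length + 5 ≤ a
    · rw [bit_end j h3] at h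
      exact absurd h (by simp)
    left
    obtain ⟨m, i, hi, rfl⟩ : ∃ m i, i < 4 ∧ a = 4 * m + 4 + i :=
      ⟨(a - 4) / 4, (a - 4) % 4, Nat.mod_lt _ (by omega), by omega⟩
    have hm : m < j.length := by omega
    refine ⟨nt m, nt_mem.2 hm, nt (4 * m + 4), nt_omega _, (hq m hm.le _).2 rfl, ?_⟩
    simp only [sc_nt, nt_eq]
    obtain rfl | rfl | rfl | rfl : i = 0 ∨ i = 1 ∨ i = 2 ∨ i = 3 := by omega
    · rw [Nat.add_zero, bit_x j hm, pre_fst hj hm] at h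
      exact Or.inl ⟨rfl, h⟩
    · rw [show 4 * m + 4 + 1 = 4 * m + 5 by omega, bit_x' j hm, Bool.not_eq_true',
        ← Bool.not_eq_true, pre_fst hj hm] at h
      exact Or.inr (Or.inl ⟨rfl, h⟩)
    · rw [show 4 * m + 4 + 2 = 4 * m + 6 by omega, bit_y j hm, pre_snd hj hm] at h
      exact Or.inr (Or.inr (Or.inl ⟨rfl, h⟩))
    · rw [show 4 * m + 4 + 3 = 4 * m + 7 by omega, bit_y' j hm, Bool.not_eq_true',
        ← Bool.not_eq_true, pre_snd hj hm] at h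
      exact Or.inr (Or.inr (Or.inr ⟨rfl, h⟩))

theorem az_iff {x y q : ZFSet.{0}} {j : Wd} (hj : Pre j x y) (hq : Qg j.length q) (v w : ℕ) :
    Az ZFSet.omega x y (nt j.length) q (nt v) (nt w) ↔ warc j v w := by
  have key : ∀ (u : ℕ) (Φ : ZFSet.{0} → Prop), (∃ a ∈ nt u, nt u = sc 1 a ∧ Φ a) ↔
      1 ≤ u ∧ Φ (nt (u - 1)) := by
    intro u Φ
    constructor
    · rintro ⟨a, ha, h1, h2⟩
      obtain ⟨a, hau, rfl⟩ := mem_nt.1 ha
      rw [sc_one_nt, nt_eq] at h1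
      subst h1
      exact ⟨by omega, h2⟩
    · rintro ⟨h1, h2⟩
      refine ⟨nt (u - 1), nt_mem.2 (by omega), ?_, h2⟩
      rw [sc_one_nt, nt_eq]
      omega
  have key2 : (∃ z ∈ nt w, z = sc 1 (nt v)) ↔ v + 2 ≤ w := by
    rw [sc_one_nt]
    constructor
    · rintro ⟨z, hz, rfl⟩
      exact nt_mem.1 hz
    · intro h
      exact ⟨_, nt_mem.2 h, rfl⟩
  unfold Az warc
  rw [key, key, key2, bz_iff hj hq, bz_iff hj hq, sc_one_nt, nt_eq, nt_eq_empty, nt_eq_empty,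
    Bool.not_eq_true]
  refine or_congr Iff.rfl (or_congr Iff.rfl ?_)
  rw [Nat.one_le_iff_ne_zero, Nat.one_le_iff_ne_zero]

/-- The word of length `n` of the pair. -/
noncomputable def word (x y : ZFSet.{0}) (n : ℕ) : Wd := by
  classical
  exact (List.range n).map fun k => (decide (nt k ∈ x), decide (nt k ∈ y))

theorem word_length (x y : ZFSet.{0}) (n : ℕ) : (word x y n).length = n := by
  simp [word]

theorem pre_word (x y : ZFSet.{0}) (n : ℕ) : Pre (word x y n) x y := by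
  classical
  intro k
  have h : (word x y n).get k = (decide (nt k ∈ x), decide (nt k ∈ y)) := by
    rw [List.get_eq_getElem]
    simp only [word, List.getElem_map, List.getElem_range]
  rw [h]
  exact ⟨decide_eq_true_iff, decide_eq_true_iff⟩

theorem pz_iff {x y q G h : ZFSet.{0}} {j : Wd} (hj : Pre j x y) (hq : Qg j.length q) :
    Pz ZFSet.omega x y G (nt j.length) q h ↔
      (∀ v, v < wsize j → ∃ a : ℕ, ZFSet.pair (nt v) (nt a) ∈ h) ∧
      ∀ v w, v < wsize j → w < wsize j → warc j v w → ∀ a b : ℕ,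
        ZFSet.pair (nt v) (nt a) ∈ h → ZFSet.pair (nt w) (nt b) ∈ h →
          ZFSet.pair (nt a) (nt b) ∈ G := by
  have hsz : wsize j = 4 * j.length + 4 + 5 := rfl
  constructor
  · rintro ⟨l, hl, c, hc, h1, h2, h3, h4⟩
    obtain ⟨c, rfl⟩ := mem_omega.1 hc
    have hc := (hq _ le_rfl c).1 h1
    rw [sc_nt] at h2
    subst h2 hc
    rw [← hsz] at h3 h4
    refine ⟨fun v hv => ?_, fun v w hv hw hvw a b ha hb => ?_⟩
    · obtain ⟨a, ha, h5⟩ := h3 (nt v) (nt_mem.2 hv)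
      obtain ⟨a, rfl⟩ := mem_omega.1 ha
      exact ⟨a, h5⟩
    · exact h4 (nt v) (nt_mem.2 hv) (nt w) (nt_mem.2 hw) ((az_iff hj hq v w).2 hvw) (nt a)
        (nt_omega a) (nt b) (nt_omega b) ha hb
  · rintro ⟨h1, h2⟩
    refine ⟨nt (wsize j), nt_omega _, nt (4 * j.length + 4), nt_omega _, (hq _ le_rfl _).2 rfl,
      ?_, ?_, ?_⟩
    · rw [sc_nt, hsz]
    · intro v hv
      obtain ⟨v, hv', rfl⟩ := mem_nt.1 hv
      obtain ⟨a, ha⟩ := h1 v hv'
      exact ⟨nt a, nt_omega a, ha⟩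
    · intro v hv w hw hvw a ha b hb h3 h4
      obtain ⟨v, hv', rfl⟩ := mem_nt.1 hv
      obtain ⟨w, hw', rfl⟩ := mem_nt.1 hw
      obtain ⟨a, rfl⟩ := mem_omega.1 ha
      obtain ⟨b, rfl⟩ := mem_omega.1 hb
      exact h2 v w hv' hw' ((az_iff hj hq v w).1 hvw) a b h3 h4

theorem exists_graph {H : ZFSet.{0}} (hH : Hz ZFSet.omega H) (f : ℕ → ℕ) (N : ℕ) :
    ∃ z ∈ H, ∀ m a : ℕ, ZFSet.pair (nt m) (nt a) ∈ z ↔ m < N ∧ a = f m := by
  induction N with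
  | zero =>
    obtain ⟨⟨a, ha, rfl⟩, -⟩ := hH
    refine ⟨∅, ha, fun m a => ?_⟩
    constructor
    · intro h
      exact absurd h (ZFSet.notMem_empty _)
    · rintro ⟨h, -⟩
      omega
  | succ N ih =>
    obtain ⟨z, hz, h1⟩ := ih
    obtain ⟨b, hb, p, -, rfl, rfl⟩ := hH.2 z hz (nt N) (nt_omega _) (nt (f N)) (nt_omega _)
    refine ⟨_, hb, fun m a => ?_⟩
    rw [ZFSet.mem_insert_iff, h1, ZFSet.pair_inj, nt_eq, nt_eq]
    constructor
    · rintro (⟨rfl, rfl⟩ | ⟨h2, h3⟩)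
      · exact ⟨by omega, rfl⟩
      · exact ⟨by omega, h3⟩
    · rintro ⟨h2, h3⟩
      rcases Nat.lt_succ_iff_lt_or_eq.1 h2 with h | h
      · exact Or.inr ⟨h, h3⟩
      · subst h
        exact Or.inl ⟨rfl, h3⟩

/-- The condition on the copies. -/
theorem nz_iff {x y G H : ZFSet.{0}} (hH : Hz ZFSet.omega H) :
    Nz ZFSet.omega x y G H ↔ ∀ j : Wd, Pre j x y → ∀ h : ℕ → ℕ,
      ¬ TW.Cp j (fun a b => ZFSet.pair (nt a) (nt b) ∈ G) h := by
  constructor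
  · intro hN j hj h hc
    obtain ⟨q, hq, h1⟩ := exists_graph hH (fun m => 4 * m + 4) (j.length + 1)
    obtain ⟨z, hz, h2⟩ := exists_graph hH h (wsize j)
    have hqg : Qg j.length q := by
      intro m hm a
      rw [h1]
      constructor
      · exact fun h => h.2
      · exact fun h => ⟨by omega, h⟩
    refine hN (nt j.length) (nt_omega _) q hq z hz (qz_iff.2 hqg) ((pz_iff hj hqg).2 ⟨?_, ?_⟩)
    · intro v hv
      exact ⟨h v, (h2 _ _).2 ⟨hv, rfl⟩⟩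
    · intro v w hv hw hvw a b ha hb
      rw [h2] at ha hb
      rw [ha.2, hb.2]
      exact hc v w hv hw hvw
  · intro hN n hn q hq h hh hqz hpz
    obtain ⟨n, rfl⟩ := mem_omega.1 hn
    have hqg := qz_iff.1 hqz
    obtain ⟨j, rfl, hj⟩ : ∃ j : Wd, j.length = n ∧ Pre j x y :=
      ⟨_, word_length x y n, pre_word x y n⟩
    obtain ⟨h1, h2⟩ := (pz_iff hj hqg).1 hpz
    choose! f hf using h1
    exact hN j hj f fun v w hv hw hvw => h2 v w hv hw hvw _ _ (hf v hv) (hf w hw)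

/-- The finite relations are elements of the power set in `M` of `P(P(ω))`. -/
theorem exists_H {M : Set ZFSet.{0}} (hM : IsTransModelZF M) : ∃ H ∈ M, Hz ZFSet.omega H := by
  obtain ⟨p1, h1, h1'⟩ := hM.power ZFSet.omega hM.inf
  obtain ⟨p2, h2, h2'⟩ := hM.power p1 h1
  obtain ⟨H, h3, h3'⟩ := hM.power p2 h2
  have hnM : ∀ n, nt n ∈ M := fun n => hM.trans _ hM.inf _ (nt_omega n)
  have hemp : ∅ ∈ M := hnM 0
  have hp : ∀ m n : ℕ, ZFSet.pair (nt m) (nt n) ∈ M ∧ ZFSet.pair (nt m) (nt n) ∈ p2 := by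
    intro m n
    have e1 : ({nt m} : ZFSet.{0}) ∈ M := by
      rw [← ZFSet.pair_eq_singleton]
      exact hM.pair _ (hnM m) _ (hnM m)
    have e2 : ({nt m, nt n} : ZFSet.{0}) ∈ M := hM.pair _ (hnM m) _ (hnM n)
    have e3 : ZFSet.pair (nt m) (nt n) ∈ M := hM.pair _ e1 _ e2
    refine ⟨e3, (h2' _).2 ⟨e3, ?_⟩⟩
    rw [ZFSet.subset_def]
    intro z hz
    rw [ZFSet.pair, ZFSet.mem_pair] at hz
    rw [h1']
    rcases hz with rfl | rfl
    · refine ⟨e1, ?_⟩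
      rw [ZFSet.subset_def]
      intro u hu
      rw [ZFSet.mem_singleton] at hu
      rw [hu]
      exact nt_omega m
    · refine ⟨e2, ?_⟩
      rw [ZFSet.subset_def]
      intro u hu
      rw [ZFSet.mem_pair] at hu
      rcases hu with rfl | rfl
      · exact nt_omega m
      · exact nt_omega n
  refine ⟨H, h3, ⟨∅, (h3' _).2 ⟨hemp, ?_⟩, rfl⟩, ?_⟩
  · rw [ZFSet.subset_def]
    intro z hz
    exact absurd hz (ZFSet.notMem_empty _)
  · intro a ha m hm n hn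
    obtain ⟨m, rfl⟩ := mem_omega.1 hm
    obtain ⟨n, rfl⟩ := mem_omega.1 hn
    obtain ⟨haM, hap⟩ := (h3' a).1 ha
    refine ⟨insert (ZFSet.pair (nt m) (nt n)) a, (h3' _).2 ⟨?_, ?_⟩, _, ZFSet.mem_insert _ _, rfl,
      rfl⟩
    · have e1 : ({ZFSet.pair (nt m) (nt n)} : ZFSet.{0}) ∈ M := by
        rw [← ZFSet.pair_eq_singleton]
        exact hM.pair _ (hp m n).1 _ (hp m n).1
      have e2 := hM.union _ (hM.pair _ e1 _ haM)
      have e3 : ZFSet.sUnion {{ZFSet.pair (nt m) (nt n)}, a} =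
          insert (ZFSet.pair (nt m) (nt n)) a := by
        ext z
        rw [ZFSet.mem_sUnion, ZFSet.mem_insert_iff]
        constructor
        · rintro ⟨u, hu, hz⟩
          rw [ZFSet.mem_pair] at hu
          rcases hu with rfl | rfl
          · exact Or.inl (ZFSet.mem_singleton.1 hz)
          · exact Or.inr hz
        · rintro (h | h)
          · exact ⟨_, ZFSet.mem_pair.2 (Or.inl rfl), ZFSet.mem_singleton.2 h⟩
          · exact ⟨_, ZFSet.mem_pair.2 (Or.inr rfl), h⟩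
      rwa [e3] at e2
    · rw [ZFSet.subset_def]
      intro z hz
      rw [ZFSet.mem_insert_iff] at hz
      rcases hz with rfl | hz
      · exact (hp m n).2
      · exact hap hz

theorem fz_iff {w2 c : ZFSet.{0}} : Fz w2 ZFSet.omega c ↔
    (∀ ξ ∈ w2, ∀ k : ℕ, ∃ a : ℕ, tr ξ (nt k) (nt a) ∈ c) ∧
      ∀ ξ ∈ w2, ∀ k a b : ℕ, tr ξ (nt k) (nt a) ∈ c → tr ξ (nt k) (nt b) ∈ c → a = b := by
  constructor
  · rintro ⟨h1, h2⟩
    refine ⟨fun ξ hξ k => ?_, fun ξ hξ k a b ha hb => ?_⟩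
    · obtain ⟨a, ha, h3⟩ := h1 ξ hξ (nt k) (nt_omega k)
      obtain ⟨a, rfl⟩ := mem_omega.1 ha
      exact ⟨a, h3⟩
    · exact nt_inj (h2 ξ hξ (nt k) (nt_omega k) (nt a) (nt_omega a) (nt b) (nt_omega b) ha hb)
  · rintro ⟨h1, h2⟩
    refine ⟨fun ξ hξ k hk => ?_, fun ξ hξ k hk a ha b hb h3 h4 => ?_⟩
    · obtain ⟨k, rfl⟩ := mem_omega.1 hk
      obtain ⟨a, ha⟩ := h1 ξ hξ k
      exact ⟨nt a, nt_omega a, ha⟩
    · obtain ⟨k, rfl⟩ := mem_omega.1 hk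
      obtain ⟨a, rfl⟩ := mem_omega.1 ha
      obtain ⟨b, rfl⟩ := mem_omega.1 hb
      rw [h2 ξ hξ k a b h3 h4]

theorem cz_iff {w2 c G : ZFSet.{0}} : Cz w2 ZFSet.omega c G ↔
    ∀ η ∈ w2, ∀ ξ ∈ η, ∃ m : ℕ, ∀ k, m ≤ k → ∃ a b : ℕ, tr ξ (nt k) (nt a) ∈ c ∧
      tr η (nt k) (nt b) ∈ c ∧ ZFSet.pair (nt a) (nt b) ∈ G := by
  constructor
  · intro h η hη ξ hξ
    obtain ⟨m, hm, h1⟩ := h η hη ξ hξ
    obtain ⟨m, rfl⟩ := mem_omega.1 hm
    refine ⟨m, fun k hk => ?_⟩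
    rcases h1 (nt k) (nt_omega k) with h2 | ⟨a, ha, b, hb, h3⟩
    · have := nt_mem.1 h2
      omega
    · obtain ⟨a, rfl⟩ := mem_omega.1 ha
      obtain ⟨b, rfl⟩ := mem_omega.1 hb
      exact ⟨a, b, h3⟩
  · intro h η hη ξ hξ
    obtain ⟨m, h1⟩ := h η hη ξ hξ
    refine ⟨nt m, nt_omega m, fun k hk => ?_⟩
    obtain ⟨k, rfl⟩ := mem_omega.1 hk
    by_cases hkm : k < m
    · exact Or.inl (nt_mem.2 hkm)
    · obtain ⟨a, b, h3⟩ := h1 k (by omega)
      exact Or.inr ⟨nt a, nt_omega a, nt b, nt_omega b, h3⟩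

theorem mz_iff {w2 x y G c H : ZFSet.{0}} (hw : ZFSet.omega ∈ w2) :
    Mz w2 x y G c H ↔ x ⊆ ZFSet.omega ∧ y ⊆ ZFSet.omega ∧ Hz ZFSet.omega H ∧
      Wit w2 x y G c := by
  constructor
  · rintro ⟨o, -, rfl, h1, h2, h3, h4, h5, h6⟩
    refine ⟨h1, h2, h5, ?_⟩
    obtain ⟨h7, h8⟩ := fz_iff.1 h3
    exact ⟨h7, h8, cz_iff.1 h4, (nz_iff h5).1 h6⟩
  · rintro ⟨h1, h2, h5, h⟩
    exact ⟨_, hw, rfl, h1, h2, fz_iff.2 ⟨h.tot, h.uniq⟩, cz_iff.2 h.chain, h5,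
      (nz_iff h5).2 h.none⟩

theorem sat_ex {M : Set ZFSet.{0}} {φ : Fml} {v : Asg} :
    Sat M (.ex φ) v ↔ ∃ x ∈ M, Sat M φ (cons x v) := by
  change ((∀ x, x ∈ M → Sat M φ (cons x v) → False) → False) ↔ _
  constructor
  · intro h
    by_contra h'
    exact h fun x hx hs => h' ⟨x, hx, hs⟩
  · rintro ⟨x, hx, hs⟩ h
    exact h x hx hs

/-- The `Sigma_1` formula. -/
theorem exists_formula : ∃ φ : Fml, IsSigma1 φ ∧ φ.bd ≤ 3 ∧
    ∀ M : Set ZFSet.{0}, IsTransModelZF M →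
    ∀ x ∈ M, ∀ y ∈ M, ∀ w2 ∈ M, ZFSet.omega ∈ w2 →
      (Sat M φ (cons x (cons y (cons w2 fun _ => ∅))) ↔
        x ⊆ ZFSet.omega ∧ y ⊆ ZFSet.omega ∧ ∃ G ∈ M, ∃ c ∈ M, Wit w2 x y G c) := by
  obtain ⟨φ, h1, hbd, h2⟩ := (d0_Mz (Var.mk 5) (Var.mk 3) (Var.mk 4) (Var.mk 2) (Var.mk 1)
    (Var.mk 0)).bd (n := 6) (by omega) (by
      intro v w hvw
      simp only [hvw 0 (by omega), hvw 1 (by omega), hvw 2 (by omega), hvw 3 (by omega),
        hvw 4 (by omega), hvw 5 (by omega)])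
  refine ⟨.ex (.ex (.ex φ)), .ex _ (.ex _ (.ex _ (.delta0 _ h1))), ?_, ?_⟩
  · simp only [Fml.ex, Fml.neg, Fml.bd]
    omega
  intro M hM x hx y hy w2 hw hw2
  have hemp : ∅ ∈ M := hM.trans _ hM.inf _ ZFSet.omega_zero
  have hv : ∀ i, cons x (cons y (cons w2 fun _ => ∅)) i ∈ M :=
    cons_mem hx (cons_mem hy (cons_mem hw fun _ => hemp))
  have key : ∀ G ∈ M, ∀ c ∈ M, ∀ H ∈ M,
      (Sat M φ (cons H (cons c (cons G (cons x (cons y (cons w2 fun _ => ∅)))))) ↔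
        x ⊆ ZFSet.omega ∧ y ⊆ ZFSet.omega ∧ Hz ZFSet.omega H ∧ Wit w2 x y G c) := by
    intro G hG c hc H hH
    rw [h2 M hM.trans _ (cons_mem hH (cons_mem hc (cons_mem hG hv)))]
    exact mz_iff hw2
  simp only [sat_ex]
  constructor
  · rintro ⟨G, hG, c, hc, H, hH, h⟩
    obtain ⟨h3, h4, -, h5⟩ := (key G hG c hc H hH).1 h
    exact ⟨h3, h4, G, hG, c, hc, h5⟩
  · rintro ⟨h3, h4, G, hG, c, hc, h5⟩
    obtain ⟨H, hH, h6⟩ := exists_H hM
    exact ⟨G, hG, c, hc, H, hH, (key G hG c hc H hH).2 ⟨h3, h4, h6, h5⟩⟩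

end Pool.Agent.Helper98.SW
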