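import Pool.Agent.Helper98.SW.D0

/-!
# Project SW: the formula

`∃ G, c, H` such that `c` is a family of functions, almost all pairs of values are arcs of `G`, and
`G` contains no copy of the tournament of an initial word of `(x, y)`; the copies are elements of `H`,
and `H` contains all finite subsets of `ω × ω`.
-/

set_option autoImplicit false

namespace Pool.Agent.Helper98.SW

open Pool.Agent.Helper87.Sym (Fml cons Sat IsTransModelZF)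
open Pool.Agent.Helper63.WR (IsDelta0 IsSigma1)
open Pool.Agent.Helper20.SW (Wd TW)

/-! ### The parts of the formula -/

/-- `c` is a family of functions. -/
def Fz (w2 o c : ZFSet.{0}) : Prop :=
  (∀ ξ ∈ w2, ∀ k ∈ o, ∃ a ∈ o, tr ξ k a ∈ c) ∧
    ∀ ξ ∈ w2, ∀ k ∈ o, ∀ a ∈ o, ∀ b ∈ o, tr ξ k a ∈ c → tr ξ k b ∈ c → a = b

/-- Almost all pairs of values are arcs. -/
def Cz (w2 o c G : ZFSet.{0}) : Prop :=
  ∀ η ∈ w2, ∀ ξ ∈ η, ∃ m ∈ o, ∀ k ∈ o, k ∈ m ∨ ∃ a ∈ o, ∃ b ∈ o, tr ξ k a ∈ c ∧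
    tr η k b ∈ c ∧ ZFSet.pair a b ∈ G

/-- `H` contains the finite relations. -/
def Hz (o H : ZFSet.{0}) : Prop :=
  (∃ a ∈ H, a = ∅) ∧ ∀ a ∈ H, ∀ m ∈ o, ∀ n ∈ o, ∃ b ∈ H, ∃ p ∈ b, p = ZFSet.pair m n ∧
    b = insert p a

/-- `q` is the function `m ↦ 4 m + 4` on `{0, …, n}`. -/
def Qz (o n q : ZFSet.{0}) : Prop :=
  (∃ z ∈ o, z = ∅ ∧ ∀ a ∈ o, ZFSet.pair z a ∈ q → a = nt 4) ∧
  (∀ m ∈ n, ∀ m' ∈ o, m' = sc 1 m → ∀ a ∈ o, ZFSet.pair m' a ∈ q →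
    ∃ b ∈ o, a = sc 4 b ∧ ZFSet.pair m b ∈ q) ∧
  (∀ m ∈ n, ∃ a ∈ o, ZFSet.pair m a ∈ q) ∧ ∃ a ∈ o, ZFSet.pair n a ∈ q

/-- The position `a` has the bit `1`. -/
def Bz (o x y n q a : ZFSet.{0}) : Prop :=
  (a = nt 0 ∨ a = nt 1 ∨ a = nt 2) ∨ (∃ m ∈ n, ∃ c ∈ o, ZFSet.pair m c ∈ q ∧
    ((a = sc 0 c ∧ m ∈ x) ∨ (a = sc 1 c ∧ ¬ m ∈ x) ∨ (a = sc 2 c ∧ m ∈ y) ∨
      (a = sc 3 c ∧ ¬ m ∈ y))) ∨ ZFSet.pair n a ∈ q

/-- There is an arc from `v` to `w`. -/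
def Az (o x y n q v w : ZFSet.{0}) : Prop :=
  (v = ∅ ∧ ∃ a ∈ w, w = sc 1 a ∧ Bz o x y n q a) ∨
    (w = ∅ ∧ ∃ a ∈ v, v = sc 1 a ∧ ¬ Bz o x y n q a) ∨
    (¬ v = ∅ ∧ ¬ w = ∅ ∧ ((∃ z ∈ w, z = sc 1 v) ∨ v = sc 1 w))

/-- `h` is a copy of the tournament of the word of length `n`. -/
def Pz (o x y G n q h : ZFSet.{0}) : Prop :=
  ∃ l ∈ o, ∃ c ∈ o, ZFSet.pair n c ∈ q ∧ l = sc 5 c ∧ (∀ v ∈ l, ∃ a ∈ o, ZFSet.pair v a ∈ h) ∧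
    ∀ v ∈ l, ∀ w ∈ l, Az o x y n q v w → ∀ a ∈ o, ∀ b ∈ o, ZFSet.pair v a ∈ h →
      ZFSet.pair w b ∈ h → ZFSet.pair a b ∈ G

/-- There are no copies in `H`. -/
def Nz (o x y G H : ZFSet.{0}) : Prop :=
  ∀ n ∈ o, ∀ q ∈ H, ∀ h ∈ H, Qz o n q → ¬ Pz o x y G n q h

/-- The matrix. -/
def Mz (w2 x y G c H : ZFSet.{0}) : Prop :=
  ∃ o ∈ w2, o = ZFSet.omega ∧ x ⊆ o ∧ y ⊆ o ∧ Fz w2 o c ∧ Cz w2 o c G ∧ Hz o H ∧ Nz o x y G H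

/-! ### They are `Delta_0` -/

section

variable {w2 o x y G c H n q h a v w : Asg → ZFSet.{0}}

theorem d0_Fz (h1 : Var w2) (h2 : Var o) (h3 : Var c) : D0 fun v => Fz (w2 v) (o v) (c v) := by
  refine D0.and ?_ ?_
  · refine D0.ball (R := fun v ξ => ∀ k ∈ o v, ∃ a ∈ o v, tr ξ k a ∈ c v) h1 ?_
    refine D0.ball (R := fun v k => ∃ a ∈ o (tl v), tr (v 0) k a ∈ c (tl v)) h2.tl ?_
    refine D0.bex (R := fun v a => tr (tl v 0) (v 0) a ∈ c (tl (tl v))) h2.tl.tl ?_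
    exact D0.tripMem Var.zero.tl.tl Var.zero.tl .zero h3.tl.tl.tl
  · refine D0.ball (R := fun v ξ => ∀ k ∈ o v, ∀ a ∈ o v, ∀ b ∈ o v, tr ξ k a ∈ c v →
      tr ξ k b ∈ c v → a = b) h1 ?_
    refine D0.ball (R := fun v k => ∀ a ∈ o (tl v), ∀ b ∈ o (tl v), tr (v 0) k a ∈ c (tl v) →
      tr (v 0) k b ∈ c (tl v) → a = b) h2.tl ?_
    refine D0.ball (R := fun v a => ∀ b ∈ o (tl (tl v)), tr (tl v 0) (v 0) a ∈ c (tl (tl v)) →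
      tr (tl v 0) (v 0) b ∈ c (tl (tl v)) → a = b) h2.tl.tl ?_
    refine D0.ball (R := fun v b => tr (tl (tl v) 0) (tl v 0) (v 0) ∈ c (tl (tl (tl v))) →
      tr (tl (tl v) 0) (tl v 0) b ∈ c (tl (tl (tl v))) → v 0 = b) h2.tl.tl.tl ?_
    exact (D0.tripMem Var.zero.tl.tl.tl Var.zero.tl.tl Var.zero.tl h3.tl.tl.tl.tl).imp
      ((D0.tripMem Var.zero.tl.tl.tl Var.zero.tl.tl .zero h3.tl.tl.tl.tl).imp
        (D0.eq Var.zero.tl .zero))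

theorem d0_Cz (h1 : Var w2) (h2 : Var o) (h3 : Var c) (h4 : Var G) :
    D0 fun v => Cz (w2 v) (o v) (c v) (G v) := by
  refine D0.ball (R := fun v η => ∀ ξ ∈ η, ∃ m ∈ o v, ∀ k ∈ o v, k ∈ m ∨ ∃ a ∈ o v, ∃ b ∈ o v,
    tr ξ k a ∈ c v ∧ tr η k b ∈ c v ∧ ZFSet.pair a b ∈ G v) h1 ?_
  refine D0.ball (R := fun v ξ => ∃ m ∈ o (tl v), ∀ k ∈ o (tl v), k ∈ m ∨ ∃ a ∈ o (tl v),
    ∃ b ∈ o (tl v), tr ξ k a ∈ c (tl v) ∧ tr (v 0) k b ∈ c (tl v) ∧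
      ZFSet.pair a b ∈ G (tl v)) .zero ?_
  refine D0.bex (R := fun v m => ∀ k ∈ o (tl (tl v)), k ∈ m ∨ ∃ a ∈ o (tl (tl v)),
    ∃ b ∈ o (tl (tl v)), tr (v 0) k a ∈ c (tl (tl v)) ∧ tr (tl v 0) k b ∈ c (tl (tl v)) ∧
      ZFSet.pair a b ∈ G (tl (tl v))) h2.tl.tl ?_
  refine D0.ball (R := fun v k => k ∈ v 0 ∨ ∃ a ∈ o (tl (tl (tl v))),
    ∃ b ∈ o (tl (tl (tl v))), tr (tl v 0) k a ∈ c (tl (tl (tl v))) ∧
      tr (tl (tl v) 0) k b ∈ c (tl (tl (tl v))) ∧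
      ZFSet.pair a b ∈ G (tl (tl (tl v)))) h2.tl.tl.tl ?_
  refine (D0.mem .zero Var.zero.tl).or ?_
  refine D0.bex (R := fun v a => ∃ b ∈ o (tl (tl (tl (tl v)))),
    tr (tl (tl v) 0) (v 0) a ∈ c (tl (tl (tl (tl v)))) ∧
      tr (tl (tl (tl v)) 0) (v 0) b ∈ c (tl (tl (tl (tl v)))) ∧
      ZFSet.pair a b ∈ G (tl (tl (tl (tl v))))) h2.tl.tl.tl.tl ?_
  refine D0.bex (R := fun v b =>
    tr (tl (tl (tl v)) 0) (tl v 0) (v 0) ∈ c (tl (tl (tl (tl (tl v))))) ∧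
      tr (tl (tl (tl (tl v))) 0) (tl v 0) b ∈ c (tl (tl (tl (tl (tl v))))) ∧
      ZFSet.pair (v 0) b ∈ G (tl (tl (tl (tl (tl v)))))) h2.tl.tl.tl.tl.tl ?_
  exact (D0.tripMem Var.zero.tl.tl.tl.tl Var.zero.tl.tl Var.zero.tl h3.tl.tl.tl.tl.tl.tl).and
    ((D0.tripMem Var.zero.tl.tl.tl.tl.tl Var.zero.tl.tl .zero h3.tl.tl.tl.tl.tl.tl).and
      (D0.pairMem Var.zero.tl .zero h4.tl.tl.tl.tl.tl.tl))

theorem d0_Hz (h1 : Var o) (h2 : Var H) : D0 fun v => Hz (o v) (H v) := by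
  refine (D0.bex (R := fun _ a => a = ∅) h2 (D0.eqEmpty .zero)).and ?_
  refine D0.ball (R := fun v a => ∀ m ∈ o v, ∀ n ∈ o v, ∃ b ∈ H v, ∃ p ∈ b,
    p = ZFSet.pair m n ∧ b = insert p a) h2 ?_
  refine D0.ball (R := fun v m => ∀ n ∈ o (tl v), ∃ b ∈ H (tl v), ∃ p ∈ b,
    p = ZFSet.pair m n ∧ b = insert p (v 0)) h1.tl ?_
  refine D0.ball (R := fun v n => ∃ b ∈ H (tl (tl v)), ∃ p ∈ b,
    p = ZFSet.pair (v 0) n ∧ b = insert p (tl v 0)) h1.tl.tl ?_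
  refine D0.bex (R := fun v b => ∃ p ∈ b,
    p = ZFSet.pair (tl v 0) (v 0) ∧ b = insert p (tl (tl v) 0)) h2.tl.tl.tl ?_
  refine D0.bex (R := fun v p =>
    p = ZFSet.pair (tl (tl v) 0) (tl v 0) ∧ v 0 = insert p (tl (tl (tl v)) 0)) .zero ?_
  exact (D0.eqOPair .zero Var.zero.tl.tl.tl Var.zero.tl.tl).and
    (D0.eqInsert Var.zero.tl .zero Var.zero.tl.tl.tl.tl)

theorem d0_Qz (h1 : Var o) (h2 : Var n) (h3 : Var q) : D0 fun v => Qz (o v) (n v) (q v) := by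
  refine D0.and ?_ (D0.and ?_ (D0.and ?_ ?_))
  · refine D0.bex (R := fun v z => z = ∅ ∧ ∀ a ∈ o v, ZFSet.pair z a ∈ q v → a = nt 4) h1 ?_
    refine (D0.eqEmpty .zero).and ?_
    refine D0.ball (R := fun v a => ZFSet.pair (v 0) a ∈ q (tl v) → a = nt 4) h1.tl ?_
    exact (D0.pairMem Var.zero.tl .zero h3.tl.tl).imp (D0.eqNt 4 .zero)
  · refine D0.ball (R := fun v m => ∀ m' ∈ o v, m' = sc 1 m → ∀ a ∈ o v,
      ZFSet.pair m' a ∈ q v → ∃ b ∈ o v, a = sc 4 b ∧ ZFSet.pair m b ∈ q v) h2 ?_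
    refine D0.ball (R := fun v m' => m' = sc 1 (v 0) → ∀ a ∈ o (tl v),
      ZFSet.pair m' a ∈ q (tl v) → ∃ b ∈ o (tl v), a = sc 4 b ∧
        ZFSet.pair (v 0) b ∈ q (tl v)) h1.tl ?_
    refine (D0.eqSc 1 .zero Var.zero.tl).imp ?_
    refine D0.ball (R := fun v a =>
      ZFSet.pair (v 0) a ∈ q (tl (tl v)) → ∃ b ∈ o (tl (tl v)), a = sc 4 b ∧
        ZFSet.pair (tl v 0) b ∈ q (tl (tl v))) h1.tl.tl ?_
    refine (D0.pairMem Var.zero.tl .zero h3.tl.tl.tl).imp ?_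
    refine D0.bex (R := fun v b => v 0 = sc 4 b ∧
        ZFSet.pair (tl (tl v) 0) b ∈ q (tl (tl (tl v)))) h1.tl.tl.tl ?_
    exact (D0.eqSc 4 Var.zero.tl .zero).and (D0.pairMem Var.zero.tl.tl.tl .zero h3.tl.tl.tl.tl)
  · refine D0.ball (R := fun v m => ∃ a ∈ o v, ZFSet.pair m a ∈ q v) h2 ?_
    refine D0.bex (R := fun v a => ZFSet.pair (v 0) a ∈ q (tl v)) h1.tl ?_
    exact D0.pairMem Var.zero.tl .zero h3.tl.tl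
  · refine D0.bex (R := fun v a => ZFSet.pair (n v) a ∈ q v) h1 ?_
    exact D0.pairMem h2.tl .zero h3.tl

theorem d0_Bz (h1 : Var o) (h2 : Var x) (h3 : Var y) (h4 : Var n) (h5 : Var q) (h6 : Var a) :
    D0 fun v => Bz (o v) (x v) (y v) (n v) (q v) (a v) := by
  refine D0.or ?_ (D0.or ?_ (D0.pairMem h4 h6 h5))
  · exact (D0.eqNt 0 h6).or ((D0.eqNt 1 h6).or (D0.eqNt 2 h6))
  · refine D0.bex (R := fun v m => ∃ c ∈ o v, ZFSet.pair m c ∈ q v ∧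
      ((a v = sc 0 c ∧ m ∈ x v) ∨ (a v = sc 1 c ∧ ¬ m ∈ x v) ∨ (a v = sc 2 c ∧ m ∈ y v) ∨
        (a v = sc 3 c ∧ ¬ m ∈ y v))) h4 ?_
    refine D0.bex (R := fun v c => ZFSet.pair (v 0) c ∈ q (tl v) ∧
      ((a (tl v) = sc 0 c ∧ v 0 ∈ x (tl v)) ∨ (a (tl v) = sc 1 c ∧ ¬ v 0 ∈ x (tl v)) ∨
        (a (tl v) = sc 2 c ∧ v 0 ∈ y (tl v)) ∨
        (a (tl v) = sc 3 c ∧ ¬ v 0 ∈ y (tl v)))) h1.tl ?_
    refine (D0.pairMem Var.zero.tl .zero h5.tl.tl).and ?_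
    refine D0.or ?_ (D0.or ?_ (D0.or ?_ ?_))
    · exact (D0.eqSc 0 h6.tl.tl .zero).and (D0.mem Var.zero.tl h2.tl.tl)
    · exact (D0.eqSc 1 h6.tl.tl .zero).and (D0.mem Var.zero.tl h2.tl.tl).not
    · exact (D0.eqSc 2 h6.tl.tl .zero).and (D0.mem Var.zero.tl h3.tl.tl)
    · exact (D0.eqSc 3 h6.tl.tl .zero).and (D0.mem Var.zero.tl h3.tl.tl).not

theorem d0_Az (h1 : Var o) (h2 : Var x) (h3 : Var y) (h4 : Var n) (h5 : Var q) (h6 : Var v)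
    (h7 : Var w) : D0 fun u => Az (o u) (x u) (y u) (n u) (q u) (v u) (w u) := by
  refine D0.or ?_ (D0.or ?_ ?_)
  · refine (D0.eqEmpty h6).and ?_
    refine D0.bex (R := fun u a => w u = sc 1 a ∧ Bz (o u) (x u) (y u) (n u) (q u) a) h7 ?_
    exact (D0.eqSc 1 h7.tl .zero).and (d0_Bz h1.tl h2.tl h3.tl h4.tl h5.tl .zero)
  · refine (D0.eqEmpty h7).and ?_
    refine D0.bex (R := fun u a => v u = sc 1 a ∧ ¬ Bz (o u) (x u) (y u) (n u) (q u) a) h6 ?_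
    exact (D0.eqSc 1 h6.tl .zero).and (d0_Bz h1.tl h2.tl h3.tl h4.tl h5.tl .zero).not
  · refine (D0.eqEmpty h6).not.and ((D0.eqEmpty h7).not.and (D0.or ?_ (D0.eqSc 1 h6 h7)))
    refine D0.bex (R := fun u z => z = sc 1 (v u)) h7 ?_
    exact D0.eqSc 1 .zero h6.tl

theorem d0_Pz (h1 : Var o) (h2 : Var x) (h3 : Var y) (h4 : Var G) (h5 : Var n) (h6 : Var q)
    (h7 : Var h) : D0 fun u => Pz (o u) (x u) (y u) (G u) (n u) (q u) (h u) := by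
  refine D0.bex (R := fun u l => ∃ c ∈ o u, ZFSet.pair (n u) c ∈ q u ∧ l = sc 5 c ∧
    (∀ v ∈ l, ∃ a ∈ o u, ZFSet.pair v a ∈ h u) ∧
    ∀ v ∈ l, ∀ w ∈ l, Az (o u) (x u) (y u) (n u) (q u) v w → ∀ a ∈ o u, ∀ b ∈ o u,
      ZFSet.pair v a ∈ h u → ZFSet.pair w b ∈ h u → ZFSet.pair a b ∈ G u) h1 ?_
  refine D0.bex (R := fun u c => ZFSet.pair (n (tl u)) c ∈ q (tl u) ∧ u 0 = sc 5 c ∧
    (∀ v ∈ u 0, ∃ a ∈ o (tl u), ZFSet.pair v a ∈ h (tl u)) ∧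
    ∀ v ∈ u 0, ∀ w ∈ u 0, Az (o (tl u)) (x (tl u)) (y (tl u)) (n (tl u)) (q (tl u)) v w →
      ∀ a ∈ o (tl u), ∀ b ∈ o (tl u),
      ZFSet.pair v a ∈ h (tl u) → ZFSet.pair w b ∈ h (tl u) →
        ZFSet.pair a b ∈ G (tl u)) h1.tl ?_
  refine (D0.pairMem h5.tl.tl .zero h6.tl.tl).and ((D0.eqSc 5 Var.zero.tl .zero).and
    (D0.and ?_ ?_))
  · refine D0.ball (R := fun u v => ∃ a ∈ o (tl (tl u)), ZFSet.pair v a ∈ h (tl (tl u)))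
      Var.zero.tl ?_
    refine D0.bex (R := fun u a => ZFSet.pair (u 0) a ∈ h (tl (tl (tl u)))) h1.tl.tl.tl ?_
    exact D0.pairMem Var.zero.tl .zero h7.tl.tl.tl.tl
  · refine D0.ball (R := fun u v => ∀ w ∈ tl u 0, Az (o (tl (tl u))) (x (tl (tl u)))
      (y (tl (tl u))) (n (tl (tl u))) (q (tl (tl u))) v w →
      ∀ a ∈ o (tl (tl u)), ∀ b ∈ o (tl (tl u)),
      ZFSet.pair v a ∈ h (tl (tl u)) → ZFSet.pair w b ∈ h (tl (tl u)) →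
        ZFSet.pair a b ∈ G (tl (tl u))) Var.zero.tl ?_
    refine D0.ball (R := fun u w => Az (o (tl (tl (tl u)))) (x (tl (tl (tl u))))
      (y (tl (tl (tl u)))) (n (tl (tl (tl u)))) (q (tl (tl (tl u)))) (u 0) w →
      ∀ a ∈ o (tl (tl (tl u))), ∀ b ∈ o (tl (tl (tl u))),
      ZFSet.pair (u 0) a ∈ h (tl (tl (tl u))) → ZFSet.pair w b ∈ h (tl (tl (tl u))) →
        ZFSet.pair a b ∈ G (tl (tl (tl u)))) Var.zero.tl.tl ?_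
    refine (d0_Az h1.tl.tl.tl.tl h2.tl.tl.tl.tl h3.tl.tl.tl.tl h5.tl.tl.tl.tl h6.tl.tl.tl.tl
      Var.zero.tl .zero).imp ?_
    refine D0.ball (R := fun u a => ∀ b ∈ o (tl (tl (tl (tl u)))),
      ZFSet.pair (tl u 0) a ∈ h (tl (tl (tl (tl u)))) →
      ZFSet.pair (u 0) b ∈ h (tl (tl (tl (tl u)))) →
        ZFSet.pair a b ∈ G (tl (tl (tl (tl u))))) h1.tl.tl.tl.tl ?_
    refine D0.ball (R := fun u b =>
      ZFSet.pair (tl (tl u) 0) (u 0) ∈ h (tl (tl (tl (tl (tl u))))) →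
      ZFSet.pair (tl u 0) b ∈ h (tl (tl (tl (tl (tl u))))) →
        ZFSet.pair (u 0) b ∈ G (tl (tl (tl (tl (tl u)))))) h1.tl.tl.tl.tl.tl ?_
    exact (D0.pairMem Var.zero.tl.tl.tl Var.zero.tl h7.tl.tl.tl.tl.tl.tl).imp
      ((D0.pairMem Var.zero.tl.tl .zero h7.tl.tl.tl.tl.tl.tl).imp
        (D0.pairMem Var.zero.tl .zero h4.tl.tl.tl.tl.tl.tl))

theorem d0_Nz (h1 : Var o) (h2 : Var x) (h3 : Var y) (h4 : Var G) (h5 : Var H) :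
    D0 fun v => Nz (o v) (x v) (y v) (G v) (H v) := by
  refine D0.ball (R := fun v n => ∀ q ∈ H v, ∀ h ∈ H v, Qz (o v) n q →
    ¬ Pz (o v) (x v) (y v) (G v) n q h) h1 ?_
  refine D0.ball (R := fun v q => ∀ h ∈ H (tl v), Qz (o (tl v)) (v 0) q →
    ¬ Pz (o (tl v)) (x (tl v)) (y (tl v)) (G (tl v)) (v 0) q h) h5.tl ?_
  refine D0.ball (R := fun v h => Qz (o (tl (tl v))) (tl v 0) (v 0) →
    ¬ Pz (o (tl (tl v))) (x (tl (tl v))) (y (tl (tl v))) (G (tl (tl v))) (tl v 0) (v 0) h)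
    h5.tl.tl ?_
  exact (d0_Qz h1.tl.tl.tl Var.zero.tl.tl Var.zero.tl).imp
    (d0_Pz h1.tl.tl.tl h2.tl.tl.tl h3.tl.tl.tl h4.tl.tl.tl Var.zero.tl.tl Var.zero.tl .zero).not

theorem d0_Mz (h1 : Var w2) (h2 : Var x) (h3 : Var y) (h4 : Var G) (h5 : Var c) (h6 : Var H) :
    D0 fun v => Mz (w2 v) (x v) (y v) (G v) (c v) (H v) := by
  refine D0.bex (R := fun v o => o = ZFSet.omega ∧ x v ⊆ o ∧ y v ⊆ o ∧ Fz (w2 v) o (c v) ∧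
    Cz (w2 v) o (c v) (G v) ∧ Hz o (H v) ∧ Nz o (x v) (y v) (G v) (H v)) h1 ?_
  exact (D0.eqOmega .zero).and ((D0.subset h2.tl .zero).and ((D0.subset h3.tl .zero).and
    ((d0_Fz h1.tl .zero h5.tl).and ((d0_Cz h1.tl .zero h5.tl h4.tl).and
    ((d0_Hz .zero h6.tl).and (d0_Nz .zero h2.tl h3.tl h4.tl h6.tl))))))

end

end Pool.Agent.Helper98.SW
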