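import Pool.Agent.Helper20.SW.Tour2

/-!
# Project SW: witnesses, as sets
-/

set_option autoImplicit false

namespace Pool.Agent.Helper98.SW

open Pool.Agent.Helper20.SW (Wd TW)

/-- The natural number `n` as a set. -/
def nt (n : ℕ) : ZFSet.{0} := ZFSet.mk (PSet.ofNat n)

/-- The triple. -/
def tr (a b c : ZFSet.{0}) : ZFSet.{0} := ZFSet.pair a (ZFSet.pair b c)

/-- `j` is an initial word of the pair `(x, y)`. -/
def Pre (j : Wd) (x y : ZFSet.{0}) : Prop :=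
  ∀ k : Fin j.length, ((j.get k).1 = true ↔ nt k ∈ x) ∧ ((j.get k).2 = true ↔ nt k ∈ y)

/-- The graph of `G` and the family of functions `c` are witnesses. -/
structure Wit (w2 x y G c : ZFSet.{0}) : Prop where
  tot : ∀ ξ ∈ w2, ∀ k : ℕ, ∃ a : ℕ, tr ξ (nt k) (nt a) ∈ c
  uniq : ∀ ξ ∈ w2, ∀ k a b : ℕ, tr ξ (nt k) (nt a) ∈ c → tr ξ (nt k) (nt b) ∈ c → a = b
  chain : ∀ η ∈ w2, ∀ ξ ∈ η, ∃ m : ℕ, ∀ k, m ≤ k → ∃ a b : ℕ, tr ξ (nt k) (nt a) ∈ c ∧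
    tr η (nt k) (nt b) ∈ c ∧ ZFSet.pair (nt a) (nt b) ∈ G
  none : ∀ j : Wd, Pre j x y → ∀ h : ℕ → ℕ,
    ¬ TW.Cp j (fun a b => ZFSet.pair (nt a) (nt b) ∈ G) h

end Pool.Agent.Helper98.SW
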