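import Pool.Agent.Helper63.WR.Final
import Pool.Agent.Helper98.SW.WitDefs
import Pool.Agent.Helper87.SymNames

/-!
# Project SW: a calculus of `Delta_0` relations

A relation on assignments is `D0` if it is defined, in all transitive sets, by a `Delta_0` formula.
-/

set_option autoImplicit false

namespace Pool.Agent.Helper98.SW

open Pool.Agent.Helper87.Sym (Fml cons Sat)
open Pool.Agent.Helper63.WR (IsDelta0 IsSigma1)

/-- Assignments. -/
abbrev Asg : Type 1 := ℕ → ZFSet.{0}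

/-- The relation `R` is defined by a `Delta_0` formula in all transitive sets. -/
def D0 (R : Asg → Prop) : Prop :=
  ∃ φ : Fml, IsDelta0 φ ∧ ∀ M : Set ZFSet.{0}, (∀ x ∈ M, ∀ y ∈ x, y ∈ M) →
    ∀ v : Asg, (∀ i, v i ∈ M) → (Sat M φ v ↔ R v)

/-- The tail of an assignment. -/
def tl (v : Asg) : Asg := fun i => v (i + 1)

/-- Projections. -/
def Var (t : Asg → ZFSet.{0}) : Prop := ∃ i, t = fun v => v i

theorem Var.mk (i : ℕ) : Var fun v => v i := ⟨i, rfl⟩

theorem Var.zero : Var fun v => v 0 := ⟨0, rfl⟩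

theorem Var.tl {t : Asg → ZFSet.{0}} (h : Var t) : Var fun w => t (tl w) := by
  obtain ⟨i, rfl⟩ := h
  exact ⟨i + 1, rfl⟩

variable {R S : Asg → Prop} {a b c d e p q t : Asg → ZFSet.{0}}

theorem cons_mem {M : Set ZFSet.{0}} {x : ZFSet.{0}} {v : Asg} (hx : x ∈ M) (hv : ∀ i, v i ∈ M) :
    ∀ i, cons x v i ∈ M := by
  intro i
  cases i with
  | zero => exact hx
  | succ i => exact hv i

namespace D0

theorem congr (h : D0 R) (h' : ∀ v, R v ↔ S v) : D0 S := by
  obtain ⟨φ, h1, h2⟩ := h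
  exact ⟨φ, h1, fun M hM v hv => (h2 M hM v hv).trans (h' v)⟩

theorem mem (ha : Var a) (hb : Var b) : D0 fun v => a v ∈ b v := by
  obtain ⟨i, rfl⟩ := ha
  obtain ⟨j, rfl⟩ := hb
  exact ⟨.mem i j, .mem i j, fun _ _ _ _ => Iff.rfl⟩

theorem eq (ha : Var a) (hb : Var b) : D0 fun v => a v = b v := by
  obtain ⟨i, rfl⟩ := ha
  obtain ⟨j, rfl⟩ := hb
  exact ⟨.eq i j, .eq i j, fun _ _ _ _ => Iff.rfl⟩

theorem fal : D0 fun _ => False := ⟨.bot, .bot, fun _ _ _ _ => Iff.rfl⟩

theorem imp (h : D0 R) (h' : D0 S) : D0 fun v => R v → S v := by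
  obtain ⟨φ, h1, h2⟩ := h
  obtain ⟨ψ, h3, h4⟩ := h'
  exact ⟨.imp φ ψ, .imp _ _ h1 h3, fun M hM v hv => imp_congr (h2 M hM v hv) (h4 M hM v hv)⟩

theorem not (h : D0 R) : D0 fun v => ¬ R v := h.imp fal

theorem and (h : D0 R) (h' : D0 S) : D0 fun v => R v ∧ S v :=
  (h.imp h'.not).not.congr fun v => by tauto

theorem or (h : D0 R) (h' : D0 S) : D0 fun v => R v ∨ S v :=
  (h.not.imp h').congr fun v => by tauto

theorem iff (h : D0 R) (h' : D0 S) : D0 fun v => R v ↔ S v :=
  ((h.imp h').and (h'.imp h)).congr fun v => by tauto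

theorem ball (ha : Var a) {R : Asg → ZFSet.{0} → Prop} (h : D0 fun w => R (tl w) (w 0)) :
    D0 fun v => ∀ x ∈ a v, R v x := by
  obtain ⟨i, rfl⟩ := ha
  obtain ⟨φ, h1, h2⟩ := h
  refine ⟨.all (.imp (.mem 0 (i + 1)) φ), .ball i φ h1, fun M hM v hv => ?_⟩
  constructor
  · intro h x hx
    have hxM := hM _ (hv i) _ hx
    exact (h2 M hM (cons x v) (cons_mem hxM hv)).1 (h x hxM hx)
  · intro h x hxM hx
    exact (h2 M hM (cons x v) (cons_mem hxM hv)).2 (h x hx)

theorem bex (ha : Var a) {R : Asg → ZFSet.{0} → Prop} (h : D0 fun w => R (tl w) (w 0)) :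
    D0 fun v => ∃ x ∈ a v, R v x :=
  (ball (R := fun v x => ¬ R v x) ha h.not).not.congr fun v => by push Not; rfl

theorem subset (ha : Var a) (hb : Var b) : D0 fun v => a v ⊆ b v :=
  (ball (R := fun v x => x ∈ b v) ha (mem .zero hb.tl)).congr fun v => by
    rw [ZFSet.subset_def]

theorem eqSingleton (ha : Var a) (hb : Var b) : D0 fun v => a v = {b v} := by
  refine ((mem hb ha).and (ball (R := fun v x => x = b v) ha (eq .zero hb.tl))).congr ?_
  intro v
  constructor
  · rintro ⟨h1, h2⟩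
    ext z
    rw [ZFSet.mem_singleton]
    constructor
    · exact h2 z
    · rintro rfl
      exact h1
  · intro h
    rw [h]
    simp

theorem eqPair (ha : Var a) (hb : Var b) (hc : Var c) : D0 fun v => a v = {b v, c v} := by
  refine ((mem hb ha).and ((mem hc ha).and (ball (R := fun v x => x = b v ∨ x = c v) ha
    ((eq .zero hb.tl).or (eq .zero hc.tl))))).congr ?_
  intro v
  constructor
  · rintro ⟨h1, h2, h3⟩
    ext z
    rw [ZFSet.mem_pair]
    constructor
    · exact h3 z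
    · rintro (rfl | rfl)
      · exact h1
      · exact h2
  · intro h
    rw [h]
    simp

theorem eqOPair (ha : Var a) (hb : Var b) (hc : Var c) :
    D0 fun v => a v = ZFSet.pair (b v) (c v) := by
  refine ((ball (R := fun v x => x = {b v} ∨ x = {b v, c v}) ha
    ((eqSingleton .zero hb.tl).or (eqPair .zero hb.tl hc.tl))).and
    ((bex (R := fun v x => x = {b v}) ha (eqSingleton .zero hb.tl)).and
    (bex (R := fun v x => x = {b v, c v}) ha (eqPair .zero hb.tl hc.tl)))).congr ?_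
  intro v
  constructor
  · rintro ⟨h1, ⟨x, hx, rfl⟩, ⟨y, hy, rfl⟩⟩
    ext z
    rw [ZFSet.pair, ZFSet.mem_pair]
    constructor
    · exact h1 z
    · rintro (rfl | rfl)
      · exact hx
      · exact hy
  · intro h
    rw [h, ZFSet.pair]
    simp

theorem pairMem (ha : Var a) (hb : Var b) (hc : Var c) :
    D0 fun v => ZFSet.pair (a v) (b v) ∈ c v := by
  refine (bex (R := fun v x => x = ZFSet.pair (a v) (b v)) hc
    (eqOPair .zero ha.tl hb.tl)).congr ?_
  intro v
  constructor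
  · rintro ⟨x, hx, rfl⟩
    exact hx
  · intro h
    exact ⟨_, h, rfl⟩

theorem tripMem (ha : Var a) (hb : Var b) (hc : Var c) (hd : Var d) :
    D0 fun v => ZFSet.pair (a v) (ZFSet.pair (b v) (c v)) ∈ d v := by
  refine (bex (R := fun v x => ∃ y ∈ x, ∃ z ∈ y, z = ZFSet.pair (b v) (c v) ∧
    x = ZFSet.pair (a v) z) hd ?_).congr ?_
  · refine bex (R := fun w y => ∃ z ∈ y, z = ZFSet.pair (b (SW.tl w)) (c (SW.tl w)) ∧
      w 0 = ZFSet.pair (a (SW.tl w)) z) .zero ?_
    refine bex (R := fun w z => z = ZFSet.pair (b (SW.tl (SW.tl w)))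
      (c (SW.tl (SW.tl w))) ∧ SW.tl w 0 = ZFSet.pair (a (SW.tl (SW.tl w))) z) .zero ?_
    exact (eqOPair .zero hb.tl.tl.tl hc.tl.tl.tl).and (eqOPair Var.zero.tl.tl ha.tl.tl.tl .zero)
  · intro v
    constructor
    · rintro ⟨x, hx, y, _, z, _, rfl, rfl⟩
      exact hx
    · intro h
      refine ⟨_, h, {a v, ZFSet.pair (b v) (c v)}, ?_, ZFSet.pair (b v) (c v), ?_, rfl, rfl⟩
      · rw [ZFSet.pair]
        simp
      · simp

theorem eqEmpty (ha : Var a) : D0 fun v => a v = ∅ := by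
  refine (ball (R := fun _ _ => False) ha fal).congr ?_
  intro v
  rw [ZFSet.eq_empty]

theorem eqInsert (ha : Var a) (hb : Var b) (hc : Var c) :
    D0 fun v => a v = insert (b v) (c v) := by
  refine ((mem hb ha).and ((subset hc ha).and (ball (R := fun v x => x = b v ∨ x ∈ c v) ha
    ((eq .zero hb.tl).or (mem .zero hc.tl))))).congr ?_
  intro v
  constructor
  · rintro ⟨h1, h2, h3⟩
    ext z
    rw [ZFSet.mem_insert_iff]
    constructor
    · exact h3 z
    · rintro (rfl | h)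
      · exact h1
      · exact h2 h
  · intro h
    rw [h]
    refine ⟨ZFSet.mem_insert _ _, fun z hz => ZFSet.mem_insert_iff.2 (Or.inr hz), fun z hz => ?_⟩
    exact ZFSet.mem_insert_iff.1 hz

end D0

/-! ### Natural numbers -/

/-- The `k`-th successor. -/
def sc : ℕ → ZFSet.{0} → ZFSet.{0}
  | 0, x => x
  | k + 1, x => insert (sc k x) (sc k x)

theorem nt_zero : nt 0 = ∅ := rfl

theorem nt_succ (n : ℕ) : nt (n + 1) = insert (nt n) (nt n) := rfl

theorem sc_nt (k n : ℕ) : sc k (nt n) = nt (n + k) := by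
  induction k with
  | zero => rfl
  | succ k ih => rw [sc, ih]; rfl

theorem sc_empty (k : ℕ) : sc k ∅ = nt k := by
  have := sc_nt k 0
  rwa [Nat.zero_add, nt_zero] at this

theorem mem_nt {n : ℕ} {x : ZFSet.{0}} : x ∈ nt n ↔ ∃ m, m < n ∧ x = nt m := by
  induction n with
  | zero =>
    constructor
    · intro h
      exact absurd h (ZFSet.notMem_empty x)
    · rintro ⟨m, hm, -⟩
      omega
  | succ n ih =>
    rw [nt_succ, ZFSet.mem_insert_iff, ih]
    constructor
    · rintro (h | ⟨m, hm, rfl⟩)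
      · exact ⟨n, by omega, h⟩
      · exact ⟨m, by omega, rfl⟩
    · rintro ⟨m, hm, rfl⟩
      rcases Nat.lt_succ_iff_lt_or_eq.1 hm with h | h
      · exact Or.inr ⟨m, h, rfl⟩
      · exact Or.inl (by rw [h])

theorem nt_inj {m n : ℕ} (h : nt m = nt n) : m = n := by
  rcases lt_trichotomy m n with h1 | h1 | h1
  · have h2 : nt m ∈ nt n := mem_nt.2 ⟨m, h1, rfl⟩
    rw [h] at h2
    exact absurd h2 (ZFSet.mem_irrefl _)
  · exact h1
  · have h2 : nt n ∈ nt m := mem_nt.2 ⟨n, h1, rfl⟩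
    rw [h] at h2
    exact absurd h2 (ZFSet.mem_irrefl _)

theorem nt_eq {m n : ℕ} : nt m = nt n ↔ m = n := ⟨nt_inj, fun h => by rw [h]⟩

theorem nt_mem {m n : ℕ} : nt m ∈ nt n ↔ m < n := by
  rw [mem_nt]
  constructor
  · rintro ⟨k, hk, h⟩
    rwa [nt_inj h]
  · intro h
    exact ⟨m, h, rfl⟩

theorem nt_eq_empty {n : ℕ} : nt n = ∅ ↔ n = 0 := by
  rw [← nt_zero, nt_eq]

theorem mem_omega {x : ZFSet.{0}} : x ∈ ZFSet.omega ↔ ∃ n, x = nt n := by
  constructor
  · intro h
    obtain ⟨y, rfl⟩ := Quotient.exists_rep x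
    obtain ⟨⟨n⟩, hn⟩ : y ∈ PSet.omega := h
    exact ⟨n, ZFSet.sound hn⟩
  · rintro ⟨n, rfl⟩
    exact ZFSet.mk_mem_iff.2 ⟨⟨n⟩, PSet.Equiv.rfl⟩

theorem nt_omega (n : ℕ) : nt n ∈ ZFSet.omega.{0} := mem_omega.2 ⟨n, rfl⟩

/-- A set which satisfies the definition of `omega`. -/
theorem eq_omega {o : ZFSet.{0}} (h0 : ∅ ∈ o) (h1 : ∀ x ∈ o, insert x x ∈ o)
    (h2 : ∀ x ∈ o, x = ∅ ∨ ∃ y ∈ o, x = insert y y) : o = ZFSet.omega := by
  ext x
  constructor
  · induction x using ZFSet.inductionOn with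
    | _ x ih =>
      intro hx
      rcases h2 x hx with rfl | ⟨y, hy, rfl⟩
      · exact ZFSet.omega_zero
      · exact ZFSet.omega_succ (ih y (ZFSet.mem_insert _ _) hy)
  · intro hx
    obtain ⟨n, rfl⟩ := mem_omega.1 hx
    clear hx
    induction n with
    | zero => exact h0
    | succ n ih => exact h1 _ ih

namespace D0

theorem eqSc (k : ℕ) (ha : Var a) (hb : Var b) : D0 fun v => a v = sc k (b v) := by
  induction k generalizing a b with
  | zero => exact eq ha hb
  | succ k ih =>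
    refine (bex (R := fun v x => x = sc k (b v) ∧ a v = insert x x) ha
      ((ih .zero hb.tl).and (eqInsert ha.tl .zero .zero))).congr ?_
    intro v
    constructor
    · rintro ⟨x, -, rfl, h⟩
      exact h
    · intro h
      refine ⟨sc k (b v), ?_, rfl, h⟩
      rw [h]
      exact ZFSet.mem_insert _ _

theorem eqNt (k : ℕ) (ha : Var a) : D0 fun v => a v = nt k := by
  induction k generalizing a with
  | zero => exact eqEmpty ha
  | succ k ih =>
    refine (bex (R := fun v x => x = nt k ∧ a v = insert x x) ha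
      ((ih .zero).and (eqInsert ha.tl .zero .zero))).congr ?_
    intro v
    constructor
    · rintro ⟨x, -, rfl, h⟩
      exact h
    · intro h
      refine ⟨nt k, ?_, rfl, h⟩
      rw [h, nt_succ]
      exact ZFSet.mem_insert _ _

theorem eqOmega (ha : Var a) : D0 fun v => a v = ZFSet.omega := by
  refine ((bex (R := fun _ x => x = ∅) ha (eqEmpty .zero)).and
    ((ball (R := fun v x => ∃ y ∈ a v, y = insert x x) ha
      (bex (R := fun w y => y = insert (w 0) (w 0)) ha.tl
        (eqInsert .zero Var.zero.tl Var.zero.tl))).and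
    (ball (R := fun v x => x = ∅ ∨ ∃ y ∈ a v, x = insert y y) ha
      ((eqEmpty .zero).or (bex (R := fun w y => w 0 = insert y y) ha.tl
        (eqInsert Var.zero.tl .zero .zero)))))).congr ?_
  intro v
  constructor
  · rintro ⟨⟨x, hx, rfl⟩, h1, h2⟩
    refine eq_omega hx (fun x hx => ?_) h2
    obtain ⟨y, hy, rfl⟩ := h1 x hx
    exact hy
  · intro h
    rw [h]
    refine ⟨⟨∅, ZFSet.omega_zero, rfl⟩, fun x hx => ⟨_, ZFSet.omega_succ hx, rfl⟩, fun x hx => ?_⟩
    obtain ⟨n, rfl⟩ := mem_omega.1 hx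
    cases n with
    | zero => exact Or.inl rfl
    | succ n => exact Or.inr ⟨nt n, nt_omega n, rfl⟩

end D0

/-! ### Renaming of the variables -/

/-- The renaming under a quantifier. -/
def lf (f : ℕ → ℕ) : ℕ → ℕ
  | 0 => 0
  | n + 1 => f n + 1

/-- Renaming of the free variables. -/
def ren : (ℕ → ℕ) → Fml → Fml
  | _, .bot => .bot
  | f, .mem i j => .mem (f i) (f j)
  | f, .eq i j => .eq (f i) (f j)
  | f, .imp φ ψ => .imp (ren f φ) (ren f ψ)
  | f, .all φ => .all (ren (lf f) φ)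

theorem cons_lf (f : ℕ → ℕ) (x : ZFSet.{0}) (v : Asg) :
    (fun i => cons x v (lf f i)) = cons x fun i => v (f i) := by
  funext i
  cases i with
  | zero => rfl
  | succ i => rfl

theorem sat_ren {M : Set ZFSet.{0}} {φ : Fml} {f : ℕ → ℕ} {v : Asg} :
    Sat M (ren f φ) v ↔ Sat M φ fun i => v (f i) := by
  induction φ generalizing f v with
  | bot => rfl
  | mem i j => rfl
  | eq i j => rfl
  | imp φ ψ ih ih' => exact imp_congr ih ih'
  | all φ ih =>
    refine forall_congr' fun x => imp_congr Iff.rfl ?_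
    rw [ih, cons_lf]

theorem delta_ren {φ : Fml} (h : IsDelta0 φ) (f : ℕ → ℕ) : IsDelta0 (ren f φ) := by
  induction h generalizing f with
  | bot => exact .bot
  | mem i j => exact .mem _ _
  | eq i j => exact .eq _ _
  | imp φ ψ _ _ ih ih' => exact .imp _ _ (ih f) (ih' f)
  | ball i φ _ ih => exact .ball (f i) _ (ih (lf f))

theorem bd_ren {φ : Fml} {f : ℕ → ℕ} {n : ℕ} (h : ∀ i, f i < n) : (ren f φ).bd ≤ n := by
  induction φ generalizing f n with
  | bot => exact Nat.zero_le _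
  | mem i j => exact Nat.succ_le_of_lt (max_lt (h i) (h j))
  | eq i j => exact Nat.succ_le_of_lt (max_lt (h i) (h j))
  | imp φ ψ ih ih' => exact max_le (ih h) (ih' h)
  | all φ ih =>
    have h1 : (ren (lf f) φ).bd ≤ n + 1 := by
      refine ih fun i => ?_
      cases i with
      | zero => exact Nat.succ_pos _
      | succ i => exact Nat.succ_lt_succ (h i)
    change (ren (lf f) φ).bd - 1 ≤ n
    omega

/-- A relation which depends only on the first `n` elements is defined by a formula in these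
variables. -/
theorem D0.bd {R : Asg → Prop} (h : D0 R) {n : ℕ} (hn : 0 < n)
    (hR : ∀ v w : Asg, (∀ i, i < n → v i = w i) → (R v ↔ R w)) :
    ∃ φ : Fml, IsDelta0 φ ∧ φ.bd ≤ n ∧ ∀ M : Set ZFSet.{0}, (∀ x ∈ M, ∀ y ∈ x, y ∈ M) →
      ∀ v : Asg, (∀ i, v i ∈ M) → (Sat M φ v ↔ R v) := by
  obtain ⟨φ, h1, h2⟩ := h
  refine ⟨ren (fun i => min i (n - 1)) φ, delta_ren h1 _, bd_ren fun i => ?_, ?_⟩
  · exact lt_of_le_of_lt (min_le_right _ _) (by omega)
  · intro M hM v hv
    rw [sat_ren, h2 M hM _ fun i => hv _]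
    refine hR _ _ fun i hi => ?_
    rw [min_eq_left (by omega)]

end Pool.Agent.Helper98.SW
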